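import Pool.Agent.Helper28.T7.StW

/-! # Project TH, all weights, module W3: quasi-polynomials from the trace relations -/

set_option autoImplicit false

namespace Pool.Agent.Helper28.T7W

open Pool.Agent.Helper28.TH (OkH ALPlus)

open Pool.Agent.Helper14.CV Pool.Agent.Helper28.WK Pool.Agent.Helper28.T7
  Pool.Agent.Helper28.T7

open Polynomial in
/-- the difference of the values at two vectors as an additive map -/
private noncomputable def Ud {R : Type} [AddCommGroup R] (Φ : ℤ → ℤ → ℕ → R) (x1 y1 x2 y2 : ℤ) :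
    Polynomial ℤ →+ R where
  toFun P := pr Φ P x1 y1 - pr Φ P x2 y2
  map_zero' := by
    rw [pr_zero]
    simp
  map_add' P Q := by
    rw [pr_add]
    simp only [Pi.add_apply]
    abel

private theorem Ud_apply {R : Type} [AddCommGroup R] (Φ : ℤ → ℤ → ℕ → R) (x1 y1 x2 y2 : ℤ)
    (P : Polynomial ℤ) : Ud Φ x1 y1 x2 y2 P = pr Φ P x1 y1 - pr Φ P x2 y2 := rfl

private theorem U_C {R : Type} [AddCommGroup R] (U : Polynomial ℤ →+ R) (c : ℤ)
    (P : Polynomial ℤ) : U (Polynomial.C c * P) = c • U P := by
  rw [← Polynomial.smul_eq_C_mul, map_zsmul]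

private theorem periodic_W3 {R : Type} [AddCommGroup R] (p : ℕ) (f : ℤ → R)
    (h : ∀ b : ℤ, ∑ i ∈ Finset.range p, f (b + i) = 0) (b : ℤ) : f (b + p) = f b := by
  have h1 : ∑ i ∈ Finset.range (p + 1), f (b + i) = f (b + p) := by
    rw [Finset.sum_range_succ, h b, zero_add]
  have h2 : ∑ i ∈ Finset.range (p + 1), f (b + i) = f b := by
    rw [Finset.sum_range_succ']
    have h3 : ∑ i ∈ Finset.range p, f (b + ((i + 1 : ℕ) : ℤ)) = 0 := by
      rw [← h (b + 1)]
      refine Finset.sum_congr rfl fun i _ => ?_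
      congr 1
      push_cast
      ring
    rw [h3]
    simp
  rw [← h1, h2]

/-- the relations for the upper unipotent matrices -/
private theorem up_W3 {R : Type} [AddCommGroup R] (p n : ℕ) (U : ℤ → Polynomial ℤ →+ R)
    (h : ∀ (b : ℤ) (j : ℕ), j ≤ n → ∑ i ∈ Finset.range p,
      U (b + i) ((Polynomial.X - Polynomial.C (i : ℤ)) ^ j) = 0) (b : ℤ) (j : ℕ) (hj : j ≤ n) :
    ∑ i ∈ Finset.range p, U (b + i) ((Polynomial.X - Polynomial.C (b + i)) ^ j) = 0 := by
  have h1 : ∀ i : ℕ, U (b + i) ((Polynomial.X - Polynomial.C (b + i)) ^ j) =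
      ∑ s ∈ Finset.range (j + 1), ((-b) ^ (j - s) * (j.choose s : ℤ)) •
        U (b + i) ((Polynomial.X - Polynomial.C (i : ℤ)) ^ s) := by
    intro i
    have e1 : (Polynomial.X - Polynomial.C (b + i) : Polynomial ℤ) =
        (Polynomial.X - Polynomial.C (i : ℤ)) + Polynomial.C (-b) := by
      rw [Polynomial.C_add, Polynomial.C_neg]
      ring
    rw [e1, add_pow, map_sum]
    refine Finset.sum_congr rfl fun s _ => ?_
    rw [← U_C]
    congr 1
    rw [Polynomial.C_mul, Polynomial.C_pow]
    have e2 : (Polynomial.C ((j.choose s : ℕ) : ℤ) : Polynomial ℤ) = ((j.choose s : ℕ) : Polynomial ℤ) :=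
      Polynomial.C_eq_natCast _
    rw [e2]
    ring
  simp only [h1]
  rw [Finset.sum_comm]
  refine Finset.sum_eq_zero fun s hs => ?_
  rw [← Finset.smul_sum, h b s (by rw [Finset.mem_range] at hs; omega), smul_zero]

/-- the relations for the lower unipotent matrices -/
private theorem down_W3 {R : Type} [AddCommGroup R] (p a : ℕ) (q : ℤ) (U : ℤ → Polynomial ℤ →+ R)
    (h : ∀ (c : ℤ) (j : ℕ), j ≤ 2 * a → ∑ i ∈ Finset.range p,
      U (c + i) (Polynomial.X ^ j * (1 - Polynomial.C (q * i) * Polynomial.X) ^ (2 * a - j)) = 0)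
    (c : ℤ) (j : ℕ) (hj : j ≤ 2 * a) :
    ∑ i ∈ Finset.range p, U (c + i) (Polynomial.X ^ j *
      (1 - Polynomial.C (q * (c + i)) * Polynomial.X) ^ (2 * a - j)) = 0 := by
  have h1 : ∀ i : ℕ, U (c + i) (Polynomial.X ^ j *
      (1 - Polynomial.C (q * (c + i)) * Polynomial.X) ^ (2 * a - j)) =
      ∑ s ∈ Finset.range (2 * a - j + 1), ((-(q * c)) ^ s * ((2 * a - j).choose s : ℤ)) •
        U (c + i) (Polynomial.X ^ (j + s) *
          (1 - Polynomial.C (q * i) * Polynomial.X) ^ (2 * a - (j + s))) := by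
    intro i
    have e1 : (1 - Polynomial.C (q * (c + i)) * Polynomial.X : Polynomial ℤ) =
        Polynomial.C (-(q * c)) * Polynomial.X + (1 - Polynomial.C (q * i) * Polynomial.X) := by
      rw [mul_add, Polynomial.C_add, Polynomial.C_neg]
      ring
    rw [e1, add_pow, Finset.mul_sum, map_sum]
    refine Finset.sum_congr rfl fun s _ => ?_
    rw [← U_C]
    congr 1
    rw [Polynomial.C_mul (a := (-(q * c)) ^ s), Polynomial.C_pow, mul_pow, pow_add]
    have e2 : (Polynomial.C (((2 * a - j).choose s : ℕ) : ℤ) : Polynomial ℤ) =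
      (((2 * a - j).choose s : ℕ) : Polynomial ℤ) := Polynomial.C_eq_natCast _
    have e3 : 2 * a - (j + s) = 2 * a - j - s := by omega
    rw [e2, e3]
    ring
  simp only [h1]
  rw [Finset.sum_comm]
  refine Finset.sum_eq_zero fun s hs => ?_
  rw [← Finset.smul_sum, h c (j + s) (by rw [Finset.mem_range] at hs; omega), smul_zero]

theorem hW3 : SHW3 := by
  intro p hp a ν Φ hΦ v1 v2 w1 w2 hv hw
  constructor
  · -- upper matrices
    set U : ℤ → Polynomial ℤ →+ ℤ_[p] := fun b =>
      Ud Φ (w1 + b * w2) w2 (v1 + b * v2) v2 with hU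
    have hrel : ∀ (b : ℤ) (j : ℕ), j ≤ 2 * a → ∑ i ∈ Finset.range p,
        U (b + i) ((Polynomial.X - Polynomial.C (i : ℤ)) ^ j) = 0 := by
      intro b j hj
      obtain ⟨k, hk⟩ := hΦ.tt j hj
      have hw' : w1 + b * w2 ≠ 0 ∨ w2 ≠ 0 := by
        by_cases h2 : w2 = 0
        · left
          rw [h2]
          rcases hw with h | h
          · simpa using h
          · exact absurd h2 h
        · exact Or.inr h2
      have hv' : v1 + b * v2 ≠ 0 ∨ v2 ≠ 0 := by
        by_cases h2 : v2 = 0
        · left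
          rw [h2]
          rcases hv with h | h
          · simpa using h
          · exact absurd h2 h
        · exact Or.inr h2
      have e1 := hk _ _ hw'
      have e2 := hk _ _ hv'
      simp only [Pi.zero_apply, zero_add] at e1 e2
      have e3 : ∀ i : ℕ, U (b + i) ((Polynomial.X - Polynomial.C (i : ℤ)) ^ j) =
          pr Φ ((Polynomial.X - Polynomial.C (i : ℤ)) ^ j) (w1 + b * w2 + i * w2) w2 -
          pr Φ ((Polynomial.X - Polynomial.C (i : ℤ)) ^ j) (v1 + b * v2 + i * v2) v2 := by
        intro i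
        have f1 : w1 + (b + i) * w2 = w1 + b * w2 + i * w2 := by ring
        have f2 : v1 + (b + i) * v2 = v1 + b * v2 + i * v2 := by ring
        simp only [hU]
        rw [Ud_apply, f1, f2]
      rw [Finset.sum_congr rfl fun i _ => e3 i, Finset.sum_sub_distrib, e1, e2, sub_self]
    have hrel2 := up_W3 p (2 * a) U hrel
    refine ⟨fun j b => ((a.choose j : ℕ) : ℤ) • U b ((Polynomial.X - Polynomial.C b) ^ (a - j)),
      ?_, ?_, ?_⟩
    · intro j b
      have h1 := periodic_W3 p (fun b => U b ((Polynomial.X - Polynomial.C b) ^ (a - j)))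
        (fun b => hrel2 b (a - j) (by omega)) b
      simp only at h1 ⊢
      rw [h1]
    · intro j
      have h1 := hrel2 0 (a - j) (by omega)
      simp only [zero_add] at h1
      rw [← Finset.smul_sum, h1, smul_zero]
    · intro b
      have h1 : cp Φ a (w1 + b * w2) w2 - cp Φ a (v1 + b * v2) v2 = U b (Polynomial.X ^ a) := by
        simp only [hU]
        rw [Ud_apply, pr_X_pow]
      show cp Φ a (w1 + b * w2) w2 - cp Φ a (v1 + b * v2) v2 = _
      rw [h1]
      have h2 : (Polynomial.X ^ a : Polynomial ℤ) =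
          (Polynomial.C b + (Polynomial.X - Polynomial.C b)) ^ a := by
        congr 1
        ring
      rw [h2, add_pow, map_sum]
      refine Finset.sum_congr rfl fun j _ => ?_
      have h3 : (Polynomial.C b ^ j * (Polynomial.X - Polynomial.C b) ^ (a - j) *
          ((a.choose j : ℕ) : Polynomial ℤ)) = Polynomial.C (b ^ j * ((a.choose j : ℕ) : ℤ)) *
          (Polynomial.X - Polynomial.C b) ^ (a - j) := by
        rw [Polynomial.C_mul, Polynomial.C_pow]
        have e2 : (Polynomial.C ((a.choose j : ℕ) : ℤ) : Polynomial ℤ) =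
          ((a.choose j : ℕ) : Polynomial ℤ) := Polynomial.C_eq_natCast _
        rw [e2]
        ring
      beta_reduce
      rw [h3, U_C, zsmul_eq_mul, zsmul_eq_mul]
      push_cast
      ring
  · -- lower matrices
    set q : ℤ := 7 * (p : ℤ) ^ ν with hq
    set U : ℤ → Polynomial ℤ →+ ℤ_[p] := fun c =>
      Ud Φ w1 (q * c * w1 + w2) v1 (q * c * v1 + v2) with hU
    have hrel : ∀ (c : ℤ) (j : ℕ), j ≤ 2 * a → ∑ i ∈ Finset.range p,
        U (c + i) (Polynomial.X ^ j * (1 - Polynomial.C (q * i) * Polynomial.X) ^ (2 * a - j))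
          = 0 := by
      intro c j hj
      obtain ⟨k, hk⟩ := hΦ.ss j hj
      have hw' : w1 ≠ 0 ∨ q * c * w1 + w2 ≠ 0 := by
        by_cases h2 : w1 = 0
        · right
          rw [h2]
          rcases hw with h | h
          · exact absurd h2 h
          · simpa using h
        · exact Or.inl h2
      have hv' : v1 ≠ 0 ∨ q * c * v1 + v2 ≠ 0 := by
        by_cases h2 : v1 = 0
        · right
          rw [h2]
          rcases hv with h | h
          · exact absurd h2 h
          · simpa using h
        · exact Or.inl h2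
      have e1 := hk _ _ hw'
      have e2 := hk _ _ hv'
      simp only [Pi.zero_apply, zero_add, ← hq] at e1 e2
      have e3 : ∀ i : ℕ, U (c + i) (Polynomial.X ^ j *
          (1 - Polynomial.C (q * i) * Polynomial.X) ^ (2 * a - j)) =
          pr Φ (Polynomial.X ^ j * (1 - Polynomial.C (q * i) * Polynomial.X) ^ (2 * a - j)) w1
            (q * i * w1 + (q * c * w1 + w2)) -
          pr Φ (Polynomial.X ^ j * (1 - Polynomial.C (q * i) * Polynomial.X) ^ (2 * a - j)) v1
            (q * i * v1 + (q * c * v1 + v2)) := by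
        intro i
        have f1 : q * (c + i) * w1 + w2 = q * i * w1 + (q * c * w1 + w2) := by ring
        have f2 : q * (c + i) * v1 + v2 = q * i * v1 + (q * c * v1 + v2) := by ring
        simp only [hU]
        rw [Ud_apply, f1, f2]
      rw [Finset.sum_congr rfl fun i _ => e3 i, Finset.sum_sub_distrib, e1, e2, sub_self]
    have hrel2 := down_W3 p a q U hrel
    refine ⟨fun s c => (((a.choose s : ℕ) : ℤ) * q ^ s) • U c (Polynomial.X ^ (a + s) *
      (1 - Polynomial.C (q * c) * Polynomial.X) ^ (2 * a - (a + s))), ?_, ?_, ?_⟩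
    · intro s c
      by_cases hs : s ≤ a
      · have h1 := periodic_W3 p (fun c => U c (Polynomial.X ^ (a + s) *
          (1 - Polynomial.C (q * c) * Polynomial.X) ^ (2 * a - (a + s))))
          (fun c => hrel2 c (a + s) (by omega)) c
        simp only at h1 ⊢
        rw [h1]
      · simp [Nat.choose_eq_zero_of_lt (not_le.1 hs)]
    · intro s
      by_cases hs : s ≤ a
      · have h1 := hrel2 0 (a + s) (by omega)
        simp only [zero_add] at h1
        rw [← Finset.smul_sum, h1, smul_zero]
      · simp [Nat.choose_eq_zero_of_lt (not_le.1 hs)]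
    · intro c
      have h1 : cp Φ a w1 (q * c * w1 + w2) - cp Φ a v1 (q * c * v1 + v2) =
          U c (Polynomial.X ^ a) := by
        simp only [hU]
        rw [Ud_apply, pr_X_pow]
      show cp Φ a w1 (q * c * w1 + w2) - cp Φ a v1 (q * c * v1 + v2) = _
      rw [h1]
      have h2 : (Polynomial.X ^ a : Polynomial ℤ) = Polynomial.X ^ a *
          (Polynomial.C (q * c) * Polynomial.X + (1 - Polynomial.C (q * c) * Polynomial.X)) ^ a := by
        have : (Polynomial.C (q * c) * Polynomial.X + (1 - Polynomial.C (q * c) * Polynomial.X) :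
          Polynomial ℤ) = 1 := by ring
        rw [this, one_pow, mul_one]
      rw [h2, add_pow, Finset.mul_sum, map_sum]
      refine Finset.sum_congr rfl fun s _ => ?_
      have h3 : (Polynomial.X ^ a * ((Polynomial.C (q * c) * Polynomial.X) ^ s *
          (1 - Polynomial.C (q * c) * Polynomial.X) ^ (a - s) * ((a.choose s : ℕ) : Polynomial ℤ))) =
          Polynomial.C ((q * c) ^ s * ((a.choose s : ℕ) : ℤ)) * (Polynomial.X ^ (a + s) *
          (1 - Polynomial.C (q * c) * Polynomial.X) ^ (2 * a - (a + s))) := by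
        rw [Polynomial.C_mul (a := (q * c) ^ s), Polynomial.C_pow]
        have e2 : (Polynomial.C ((a.choose s : ℕ) : ℤ) : Polynomial ℤ) =
          ((a.choose s : ℕ) : Polynomial ℤ) := Polynomial.C_eq_natCast _
        have e3 : 2 * a - (a + s) = a - s := by omega
        rw [e2, e3, mul_pow, pow_add]
        ring
      beta_reduce
      rw [h3, U_C, zsmul_eq_mul, zsmul_eq_mul]
      push_cast
      ring

end Pool.Agent.Helper28.T7W
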