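import Pool.Agent.Helper28.T7.StW
import Pool.Agent.Helper28.TLV.M_FinV
import Pool.Agent.Helper28.THW.M_BrgH

/-!
# The Eichler potentials of a newform of level `7 p^(ν+2)` with `f | W_7 = f` and root number `+1` satisfy `IDataH`
-/

set_option autoImplicit false

namespace Pool.Agent.Helper28.T7W

open Pool.Agent.Helper14.CV (G0 Homog EqC act)
open Pool.Agent.Helper14.WK
open Pool.Agent.Helper28.WK
open Pool.Agent.Helper28.TL (IsNewN trace_zero shift_zero)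
open Pool.Agent.Helper28.T7
open Pool.Agent.Helper28.TH (OkH ALPlus)
open Pool.Agent.Helper28.T7

theorem hBrgH (hA4 : SKA4) (hMod : SKMod) (hP1 : SKP1) (hP2 : SKP2) (hH3 : SKH3) (hA8 : SKA8)
    (hN2 : SKN2) (hN3 : SKN3) (hP5 : SKP5) (hP6 : SKP6) (hP4 : SKP4)
    (p A ν : ℕ) (hp : p.Prime) (hne : NeZero (7 * p ^ (ν + 2)))
    (hk : 0 < (2 * A + 2 : ℤ))
    (f : CuspForm (G0 (7 * p ^ (ν + 2))) (2 * A + 2)) (hf : IsNewN f) (hal : ALPlus 7 (p ^ (ν + 2)) f)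
    (hε : RootOneK hk f) :
    ∃ I : ℤ → ℤ → ℕ → ℂ, IsPotK A f I ∧ IDataH p A ν I := by
  obtain ⟨I, hI, hinf⟩ := hA4 (7 * p ^ (ν + 2)) hne A f
  have hp0 : p ^ (ν + 2) ≠ 0 := pow_ne_zero _ hp.ne_zero
  have hp1 : p ^ (ν + 1) ≠ 0 := pow_ne_zero _ hp.ne_zero
  have tpa := trace_zero hN2 hN3 p (7 * p ^ (ν + 1)) hp ((dvd_pow_self p (by omega)).mul_left 7)
    (mul_ne_zero (by norm_num) hp1) A (7 * p ^ (ν + 2)) (by ring) f hf
  have tpb := shift_zero hA8 p (7 * p ^ (ν + 1)) hp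
    (mul_ne_zero (by norm_num) hp1) A (7 * p ^ (ν + 2)) (by ring) hk f tpa hε
  refine ⟨I, hI, ?_⟩
  constructor
  · exact hP1 _ hne A f I hI
  · exact hinf
  · intro α β γ δ hdet hγ i hi
    have hM := hMod (7 * p ^ (ν + 2)) hne A f α β γ δ hdet (by push_cast; exact hγ)
    obtain ⟨C, hC⟩ := hP2 (7 * p ^ (ν + 2)) hne A f I α β γ δ 1 hI (by rw [hdet]; norm_num)
      (fun z hz => by rw [hM z hz, one_mul]) i hi
    refine ⟨C, fun x y hxy => ?_⟩
    have h1 := hC x y hxy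
    rw [hdet] at h1
    simp only [Int.cast_one, one_mul, mp] at h1
    exact h1
  · intro α β γ δ hdet hα hδ hγ i hi
    have := Pool.Agent.Helper28.THW.eqq_of hP2 7 (p ^ (ν + 2)) (by norm_num) (7 * p ^ (ν + 2)) hne A f hal I hI α β γ δ
      (by exact_mod_cast hdet) (by exact_mod_cast hα) (by exact_mod_cast hδ) (by push_cast; exact_mod_cast hγ) i hi
    exact_mod_cast this
  · intro j hj
    refine ⟨0, fun x y hxy => ?_⟩
    have h1 := hP5 (7 * p ^ (ν + 2)) hne A f I p hp.pos hI (fun z hz => tpb z hz) j hj x y hxy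
    simp only [Pi.zero_apply, add_zero]
    exact h1
  · intro j hj
    obtain ⟨C, hC⟩ := hP6 (7 * p ^ (ν + 2)) hne A f I p (7 * p ^ (ν + 1)) hI tpa j hj
    refine ⟨C, fun x y hxy => ?_⟩
    have h1 := hC x y hxy
    simp only [Pi.zero_apply, zero_add]
    rw [← h1]
    refine Finset.sum_congr rfl fun i _ => ?_
    have e1 : (Polynomial.X ^ j * (1 - Polynomial.C (7 * (p : ℤ) ^ (ν + 1) * i) * Polynomial.X) ^
        (2 * A - j) : Polynomial ℤ) = mp A 1 0 (-(i * (7 * p ^ (ν + 1) : ℕ) : ℤ)) 1 j := by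
      unfold mp
      congr 1
      · simp
      · congr 1
        push_cast
        simp only [Polynomial.C_mul, Polynomial.C_neg, Polynomial.C_1]
        ring
    rw [e1]
    congr 1
    push_cast
    ring
  · have h1 := hP4 (7 * p ^ (ν + 2)) hne A f I hI (hA8 (7 * p ^ (ν + 2)) hne A hk f hε)
    have e : ((7 * p ^ (ν + 2) : ℕ) : ℤ) = 7 * (p : ℤ) ^ (ν + 2) := by push_cast; rfl
    rw [← e]
    exact h1
  · refine ⟨fun l => fcK f l, fun l m hl hlp hl2 hm i hi x y hxy => ?_⟩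
    have hlN : ¬ l ∣ 7 * p ^ (ν + 2) := by
      intro h
      rcases (Nat.Prime.dvd_mul hl).1 h with h | h
      · exact hl2 ((Nat.prime_dvd_prime_iff_eq hl Nat.prime_seven).1 h)
      · exact hlp ((Nat.prime_dvd_prime_iff_eq hl hp).1 (hl.dvd_of_dvd_pow h))
    exact hH3 (7 * p ^ (ν + 2)) hne A f I l (fcK f l) m hI hl.pos (hf.hecke l hl hlN) hm i hi x y hxy

/-- Level `7 p^n`, `n ≥ 2` (`n = ν + 2`). -/
theorem hFinH (hTr : SHTr) (hAll : SHAll) (p : ℕ) (hp : p.Prime) (hp2 : p ≠ 7)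
    (A ν : ℕ) (hA : 1 ≤ A)
    (hQC : ∀ Φ : ℤ → ℤ → ℕ → ℂ, WSymH p A ν Φ → EqC (cp Φ A) 0) (hne : NeZero (7 * p ^ (ν + 2)))
    (hk : 0 < (2 * A + 2 : ℤ))
    (f : CuspForm (G0 (7 * p ^ (ν + 2))) (2 * A + 2)) (hf : IsNewN f) (hal : ALPlus 7 (p ^ (ν + 2)) f)
    (hε : RootOneK hk f) : LanK hk f (1 / 2) ≠ 0 := by
  intro hL
  obtain ⟨a4, kmod, p1, p2, h3, a8, n2, n3, p5, p6, p4, a5, kin⟩ := Pool.Agent.Helper28.TLV.ana
  obtain ⟨I, hI, hD⟩ := hBrgH a4 kmod p1 p2 h3 a8 n2 n3 p5 p6 p4 p A ν hp hne hk f hf hal hε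
  have h0 := a5 (7 * p ^ (ν + 2)) hne A hk f I hI hL
  have hW := hTr p A ν I hp hp2 hD h0
  have hc := hAll p A ν _ hp hW (hQC _ hW)
  have hz := Pool.Agent.Helper28.TLV.hTr2V p A I hp.ne_zero hD.hom hD.inf hc
  have h1 := kin (7 * p ^ (ν + 2)) hne A f I hA hI hz 1 le_rfl
  rw [hf.normalised] at h1
  exact one_ne_zero h1

end Pool.Agent.Helper28.T7W
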